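import Pool.Agent.NE.Stmts

/-!
# NE / CVM (helper81): the values of a node come close to `Ψ X`
-/

set_option autoImplicit false

open Finset Filter Topology

noncomputable section

namespace Pool.Agent.NE.H81

theorem cvm (hN : NnbStmt) (hF : TrfStmt) (hM : MsiStmt) (hR : RndStmt) : CvmStmt := by
  intro X Z _ _ _ _ Ψ N p s σ θ L y C M τ ht hv hτ hτ1 hret t i ε hi hε
  obtain ⟨hσ, hθ, -⟩ := hF N p s σ θ ht
  obtain ⟨hus, htn, hnn, hmono, -, -, -⟩ := hN N ht.two
  obtain ⟨m1, m2, m3⟩ := hM N p s σ θ ht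
  have hM0 : 0 ≤ M := (norm_nonneg _).trans (hv.bdd 0 0 (by have := htn 0; omega))
  have hn1 : 1 ≤ nn N t := by have := htn t; omega
  -- averages are bounded
  have hav : ∀ T, t ≤ T → ‖S N σ θ L (nn N t) T i‖ ≤ M := by
    intro T hT
    have hm := m2 (nn N t) T i hn1 (hmono hT) hi
    unfold S
    rw [norm_smul, norm_inv, Real.norm_of_nonneg hm.le]
    have h1 : ‖∑ j ∈ range (nn N T) with anc σ (nn N t) j = i, θ T j • L T j‖ ≤
        ms N σ θ (nn N t) T i * M := by
      refine (norm_sum_le _ _).trans ?_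
      unfold ms cl
      rw [sum_mul]
      refine sum_le_sum fun j hj => ?_
      rw [mem_filter, mem_range] at hj
      rw [norm_smul, Real.norm_of_nonneg (hθ T j hj.1).le]
      exact mul_le_mul_of_nonneg_left (hv.bdd T j hj.1) (hθ T j hj.1).le
    calc (ms N σ θ (nn N t) T i)⁻¹ * ‖∑ j ∈ range (nn N T) with anc σ (nn N t) j = i,
          θ T j • L T j‖ ≤ (ms N σ θ (nn N t) T i)⁻¹ * (ms N σ θ (nn N t) T i * M) :=
          mul_le_mul_of_nonneg_left h1 (inv_pos.2 hm).le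
      _ = M := by field_simp
  have hq0 : 0 ≤ 1 - τ / 2 := by linarith
  have hq1 : 1 - τ / 2 < 1 := by linarith
  have key : ∀ k : ℕ, ∀ T₀ : ℕ, ∃ T, T₀ ≤ T ∧ t ≤ T ∧ ∃ z ∈ Submodule.span ℝ (y '' Set.Iio T),
      ‖S N σ θ L (nn N t) T i - Ψ z‖ ≤ ε / 2 + (1 - τ / 2) ^ k * M := by
    intro k
    induction k with
    | zero =>
      intro T₀
      refine ⟨max T₀ t, le_max_left _ _, le_max_right _ _, 0, Submodule.zero_mem _, ?_⟩
      rw [map_zero, sub_zero, pow_zero, one_mul]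
      have := hav (max T₀ t) (le_max_right _ _)
      linarith
    | succ k ih =>
      intro T₀
      set e : ℝ := ε / 2 + (1 - τ / 2) ^ k * M with he
      have he0 : 0 ≤ e := by positivity
      have hK : 0 < (1 - τ) * e + 2 := by
        have : 0 ≤ (1 - τ) * e := mul_nonneg (by linarith) he0
        linarith
      obtain ⟨r, hr⟩ := exists_pow_lt_of_lt_one
        (show (0 : ℝ) < τ * ε / 4 / ((1 - τ) * e + 2) by positivity)
        (show (1 / 2 : ℝ) < 1 by norm_num)
      obtain ⟨T, hT0, htT, z, hz, hzd⟩ := ih (max T₀ r)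
      obtain ⟨T', hTT', z', hz', hzd'⟩ := hR X Z Ψ N p s σ θ L y C M τ ht hv hτ hτ1 hret t i T z e
        hi htT he0 hz hzd
      refine ⟨T', ((le_max_left _ _).trans hT0).trans hTT', htT.trans hTT', z', hz', hzd'.trans ?_⟩
      have hrT : r ≤ T + 1 := ((le_max_right _ _).trans hT0).trans (Nat.le_succ T)
      set x : ℝ := (1 / 2 : ℝ) ^ (T + 1) with hx
      have hx0 : 0 ≤ x := by positivity
      have hx1 : x ≤ 1 := pow_le_one₀ (by norm_num) (by norm_num)
      have hxr : x ≤ (1 / 2 : ℝ) ^ r := pow_le_pow_of_le_one (by norm_num) (by norm_num) hrT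
      have hx2 : (1 / 2 : ℝ) ^ (T + 2) = x / 2 := by
        rw [hx, show T + 2 = (T + 1) + 1 by ring, pow_succ]; ring
      have hx3 : x * ((1 - τ) * e + 2) ≤ τ * ε / 4 := by
        have := (hxr.trans hr.le)
        rwa [le_div_iff₀ hK] at this
      rw [hx2]
      have h1 : (1 + x) * ((1 - τ) * e + x / 2) ≤ (1 - τ) * e + x * ((1 - τ) * e + 2) := by
        nlinarith [mul_le_mul_of_nonneg_left hx1 hx0]
      have h2 : (1 - τ) * e ≤ (1 - τ) * (ε / 2) + (1 - τ / 2) ^ (k + 1) * M := by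
        have hk0 : 0 ≤ (1 - τ / 2) ^ k * M := by positivity
        have : (1 - τ) * ((1 - τ / 2) ^ k * M) ≤ (1 - τ / 2) * ((1 - τ / 2) ^ k * M) :=
          mul_le_mul_of_nonneg_right (by linarith) hk0
        rw [he, pow_succ]
        nlinarith
      nlinarith
  obtain ⟨k, hk⟩ : ∃ k : ℕ, (1 - τ / 2) ^ k * M ≤ ε / 2 := by
    obtain ⟨k, hk⟩ := exists_pow_lt_of_lt_one
      (show (0 : ℝ) < ε / 2 / (M + 1) by positivity) hq1
    refine ⟨k, ?_⟩
    have hM1 : 0 < M + 1 := by linarith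
    have h1 : (1 - τ / 2) ^ k * (M + 1) ≤ ε / 2 := by
      have := hk.le
      rwa [le_div_iff₀ hM1] at this
    have h2 : (1 - τ / 2) ^ k * M ≤ (1 - τ / 2) ^ k * (M + 1) :=
      mul_le_mul_of_nonneg_left (by linarith) (by positivity)
    exact h2.trans h1
  obtain ⟨T, -, htT, z, hz, hzd⟩ := key k t
  exact ⟨T, htT, z, hz, hzd.trans (by linarith)⟩

end Pool.Agent.NE.H81
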