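import Pool.Agent.NE.Stmts

/-!
# NE / SPS (helper81): spreading
-/

set_option autoImplicit false

open Finset Filter Topology

noncomputable section

namespace Pool.Agent.NE.H81

theorem sps (hA : AncStmt) (hN : NnbStmt) (hF : TrfStmt) (hL : LocStmt) (hM : MsiStmt) :
    SpsStmt := by
  intro N p s σ θ ht
  obtain ⟨hσ, hθ, -⟩ := hF N p s σ θ ht
  obtain ⟨hus, -, -, -, -, -, -⟩ := hN N ht.two
  obtain ⟨m1, m2, m3⟩ := hM N p s σ θ ht
  -- the facts about `anc`
  have a1 : ∀ m i, i < m → anc σ m i = i := (hA σ 0 (fun i h1 _ => hσ i h1)).1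
  have a2 : ∀ m i, 1 ≤ m → anc σ m i < m := fun m i h1 =>
    ((hA σ (i + 1) (fun j hj _ => hσ j hj)).2.1 m i h1 (Nat.lt_succ_self i)).1
  have a4 : ∀ m m' i, 1 ≤ m → m ≤ m' → anc σ m (anc σ m' i) = anc σ m i := fun m m' i h1 h2 =>
    (hA σ (i + 1) (fun j hj _ => hσ j hj)).2.2.2 m m' i h1 h2 (Nat.lt_succ_self i)
  have a5 : ∀ n T j, 1 ≤ n → n ≤ nn N T → j < N T →
      anc σ n (ix (nn N T) (us T) j) = anc σ n (us T) := by
    intro n T j h1 h2 hj
    have h2T := ht.two T
    have hl := (hL N p s σ θ ht T 1 le_rfl (by omega)).2 j hj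
    have hz : anc (s T) 1 j = 0 := by
      have := ((hA (s T) (N T) (fun i h1 h2 => ht.lt T i h1 h2)).2.1 1 j le_rfl hj).1
      omega
    rw [hz] at hl
    have e1 : nn N T + (1 - 1) = nn N T := by omega
    rw [e1] at hl
    have e2 : ix (nn N T) (us T) 0 = us T := by simp [ix]
    rw [e2] at hl
    rw [← a4 n (nn N T) _ h1 h2, hl]
  refine ⟨?_, ?_, ?_, ?_⟩
  · intro n T a i h1 h2 hi
    have hm := m2 n T i h1 h2 hi
    have e : cl N σ n T (sp N σ θ n T a) i =
        ∑ j ∈ range (nn N T) with anc σ n j = i, θ T j * (a i / ms N σ θ n T i) := by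
      unfold cl
      refine sum_congr rfl fun j hj => ?_
      rw [mem_filter] at hj
      unfold sp
      rw [hj.2]
      ring
    rw [e, ← sum_mul]
    have e2 : ∑ j ∈ range (nn N T) with anc σ n j = i, θ T j = ms N σ θ n T i := rfl
    rw [e2]
    field_simp
  · intro n T a h1 h2
    refine ⟨?_, ?_⟩
    · intro j hj
      unfold sp
      rw [a5 n T j h1 h2 hj, ht.th1 T j hj,
        m1 n T (T + 1) (anc σ n (us T)) h1 h2 (Nat.le_succ T) (a2 n _ h1)]
      ring
    · intro i hi hiu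
      unfold sp
      rw [ht.th2 T i hi hiu, m1 n T (T + 1) (anc σ n i) h1 h2 (Nat.le_succ T) (a2 n _ h1)]
  · intro t a i hi
    unfold sp
    rw [a1 _ i hi, m3 t t i le_rfl hi, div_self (hθ t i hi).ne', one_mul]
  · intro n T i j h1 h2 hi hj
    have hmpos := m2 n T (anc σ n j) h1 h2 (a2 n j h1)
    have hθj := hθ T j hj
    have hle : θ T j ≤ ms N σ θ n T (anc σ n j) := by
      unfold ms cl
      refine single_le_sum (f := fun k => θ T k) (fun k hk => ?_) ?_
      · rw [mem_filter, mem_range] at hk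
        exact (hθ T k hk.1).le
      · rw [mem_filter, mem_range]
        exact ⟨hj, rfl⟩
    have hd0 : 0 ≤ θ T j / ms N σ θ n T (anc σ n j) := (div_pos hθj hmpos).le
    have hd1 : θ T j / ms N σ θ n T (anc σ n j) ≤ 1 := (div_le_one hmpos).2 hle
    unfold sp
    by_cases h : anc σ n j = i
    · simp only [h, if_true, mul_one]
      rw [h] at hd0 hd1
      exact ⟨hd0, hd1⟩
    · simp only [h, if_false, mul_zero]
      exact ⟨le_rfl, zero_le_one⟩

end Pool.Agent.NE.H81
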