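import Pool.Agent.NE.Stmts

/-!
# NE / UPS (helper81): upper estimates
-/

set_option autoImplicit false

open Finset Filter Topology

noncomputable section

namespace Pool.Agent.NE.H81

theorem ups (hSpl : SplStmt) (hN : NnbStmt) (hS : SpsStmt) : UpsStmt := by
  intro X Z _ _ _ _ Ψ N p s σ θ L y C M ht hv n t T a z h1 hn htT hz
  obtain ⟨hus, -, hnn, hmono, -, -, -⟩ := hN N ht.two
  obtain ⟨-, s2, -, -⟩ := hS N p s σ θ ht
  induction T, htT using Nat.le_induction with
  | base => simp
  | succ T htT ih =>
    have hnT : n ≤ nn N T := hn.trans (hmono htT)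
    obtain ⟨c1, c2⟩ := s2 n T a h1 hnT
    have h2T := ht.two T
    set A : ℝ := sp N σ θ n T a (us T) with hA
    set b : Z := ∑ i ∈ (range (nn N T)).erase (us T), sp N σ θ n T a i • L T i with hb
    have e1 : J N L (T + 1) (sp N σ θ n (T + 1) a) =
        b + A • ∑ j ∈ range (N T), p T j • L (T + 1) (ix (nn N T) (us T) j) := by
      unfold J
      rw [hnn T, hSpl Z (fun i => sp N σ θ n (T + 1) a i • L (T + 1) i) (nn N T) (us T) (N T)
        (hus T) (by omega)]
      congr 1
      · refine sum_congr rfl fun i hi => ?_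
        rw [mem_erase, mem_range] at hi
        rw [c2 i hi.2 hi.1, hv.keep T i hi.2 hi.1]
      · rw [smul_sum]
        refine sum_congr rfl fun j hj => ?_
        rw [mem_range] at hj
        rw [c1 j hj, smul_smul, mul_comm (p T j)]
    have e2 : J N L T (sp N σ θ n T a) = b + A • L T (us T) := by
      unfold J
      rw [hb, hA, sum_erase_add _ _ (mem_range.2 (hus T))]
    have hbmem : b + Ψ z ∈ Bs Ψ (L T) (nn N T) (us T) (y '' Set.Iio T) := by
      refine Submodule.add_mem _ ?_ ?_
      · refine Submodule.sum_mem _ fun i hi => ?_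
        rw [mem_erase, mem_range] at hi
        refine Submodule.smul_mem _ _ (Submodule.subset_span (Or.inl ⟨i, ⟨hi.2, hi.1⟩, rfl⟩))
      · have hz' : z ∈ Submodule.span ℝ (y '' Set.Iio T) :=
          Submodule.span_mono (Set.image_mono (Set.Iio_subset_Iio htT)) hz
        have h3 : Ψ z ∈ (Submodule.span ℝ (y '' Set.Iio T)).map Ψ.toLinearMap :=
          Submodule.mem_map_of_mem (f := Ψ.toLinearMap) hz'
        rw [Submodule.map_span] at h3
        exact Submodule.span_mono Set.subset_union_right h3
    have hup := (hv.step T).up (b + Ψ z) hbmem A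
    have e3 : J N L (T + 1) (sp N σ θ n (T + 1) a) + Ψ z =
        b + Ψ z + A • ∑ j ∈ range (N T), p T j • L (T + 1) (ix (nn N T) (us T) j) := by
      rw [e1]; abel
    have e4 : J N L T (sp N σ θ n T a) + Ψ z = b + Ψ z + A • L T (us T) := by
      rw [e2]; abel
    rw [e3]
    refine hup.trans ?_
    rw [← e4, prod_Ico_succ_top htT, mul_comm (∏ i ∈ Ico t T, (1 + et i)) (1 + et T), mul_assoc]
    refine mul_le_mul_of_nonneg_left ih ?_
    have : (0 : ℝ) ≤ et T := by unfold et; positivity
    linarith

end Pool.Agent.NE.H81
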